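import Mathlib
import Pool.Agent.Q91.Signs
import Pool.Agent.Q91.Blocks

/-!
# Sign choices in the plane: every target is attained, but by sets of small dimension
-/

namespace Pool.Agent.Results.MP_b48a23_an.SmallDim

open Filter Topology Q91.Signs Q91.Blocks

open scoped ENNReal

/-- The set `E_L` of sign sequences for which the series `∑ ε_n v_n` converges to `L`. -/
def EL (v : ℕ → ℝ × ℝ) (L : ℝ × ℝ) : Set Om :=
  {ε | Tendsto (fun N => ∑ n ∈ Finset.range N, sg ε n • v n) atTop (𝓝 L)}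

/-! ### Dyadic patterns -/

/-- The sign of a Boolean. -/
def sgb (c : Bool) : ℝ := if c then 1 else -1

lemma abs_sgb (c : Bool) : |sgb c| = 1 := by
  unfold sgb; split_ifs <;> norm_num

/-- The value `∑_{i ≤ A} ± 2^{-i}` of a pattern. -/
noncomputable def val (A : ℕ) (p : ℕ → Bool) : ℝ :=
  ∑ i ∈ Finset.range (A + 1), sgb (p i) * (1 / 2) ^ i

lemma val_succ (A : ℕ) (p : ℕ → Bool) :
    val (A + 1) p = sgb (p 0) + val A (fun i => p (i + 1)) / 2 := by
  unfold val
  rw [Finset.sum_range_succ' _ (A + 1), Finset.sum_div, add_comm]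
  simp only [pow_zero, mul_one]
  congr 1
  apply Finset.sum_congr rfl
  intro i _
  rw [pow_succ]
  ring

lemma abs_val_le (A : ℕ) : ∀ p : ℕ → Bool, |val A p| ≤ 2 - (1 / 2) ^ A := by
  induction A with
  | zero => intro p; simp [val, abs_sgb]; norm_num
  | succ A ih =>
    intro p
    rw [val_succ]
    have h1 := ih (fun i => p (i + 1))
    have h2 := abs_sgb (p 0)
    calc |sgb (p 0) + val A (fun i => p (i + 1)) / 2|
        ≤ |sgb (p 0)| + |val A (fun i => p (i + 1)) / 2| := abs_add_le _ _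
      _ ≤ 1 + (2 - (1 / 2) ^ A) / 2 := by
          rw [h2, abs_div, abs_of_pos (by norm_num : (0 : ℝ) < 2)]
          linarith
      _ = 2 - (1 / 2) ^ (A + 1) := by rw [pow_succ]; ring

lemma abs_val_le_two (A : ℕ) (p : ℕ → Bool) : |val A p| ≤ 2 := by
  have h1 := abs_val_le A p
  have h2 : (0 : ℝ) < (1 / 2) ^ A := by positivity
  linarith

lemma exists_near (A : ℕ) : ∀ u : ℝ, |u| ≤ 2 → ∃ p : ℕ → Bool, |u - val A p| ≤ (1 / 2) ^ A := by
  induction A with
  | zero =>
    intro u hu
    rw [abs_le] at hu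
    rcases le_total 0 u with h | h
    · refine ⟨fun _ => true, ?_⟩
      simp only [val, sgb, zero_add, Finset.range_one, Finset.sum_singleton, pow_zero, if_true,
        mul_one]
      rw [abs_le]; constructor <;> linarith
    · refine ⟨fun _ => false, ?_⟩
      simp only [val, sgb, zero_add, Finset.range_one, Finset.sum_singleton, pow_zero, mul_one]
      rw [abs_le]; constructor <;> norm_num <;> linarith
  | succ A ih =>
    intro u hu
    rw [abs_le] at hu
    obtain ⟨c, hc⟩ : ∃ c : Bool, |2 * (u - sgb c)| ≤ 2 := by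
      rcases le_total 0 u with h | h
      · refine ⟨true, ?_⟩
        simp only [sgb, if_true]
        rw [abs_le]; constructor <;> linarith
      · refine ⟨false, ?_⟩
        simp only [sgb]
        rw [abs_le]; constructor <;> norm_num <;> linarith
    obtain ⟨p, hp⟩ := ih _ hc
    refine ⟨fun i => if i = 0 then c else p (i - 1), ?_⟩
    rw [val_succ]
    simp only [if_true, Nat.add_sub_cancel, Nat.succ_ne_zero, if_false]
    have e : u - (sgb c + val A p / 2) = (2 * (u - sgb c) - val A p) / 2 := by ring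
    have e2 : (fun i => p i) = p := rfl
    rw [e, abs_div, abs_of_pos (by norm_num : (0 : ℝ) < 2), pow_succ]
    linarith

/-- Different patterns have values at distance at least `2 · 2^{-A}`. -/
lemma val_sep (A : ℕ) : ∀ p p' : ℕ → Bool, (∃ i ≤ A, p i ≠ p' i) →
    2 * (1 / 2) ^ A ≤ |val A p - val A p'| := by
  induction A with
  | zero =>
    rintro p p' ⟨i, hi, hne⟩
    obtain rfl : i = 0 := by omega
    simp only [val, zero_add, Finset.range_one, Finset.sum_singleton, pow_zero, mul_one]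
    unfold sgb
    cases h1 : p 0 <;> cases h2 : p' 0 <;> simp_all <;> norm_num
  | succ A ih =>
    rintro p p' ⟨i, hi, hne⟩
    rw [val_succ, val_succ]
    have b1 := abs_val_le A (fun i => p (i + 1))
    have b2 := abs_val_le A (fun i => p' (i + 1))
    rw [abs_le] at b1 b2
    have hpow : (1 / 2 : ℝ) ^ (A + 1) = (1 / 2) ^ A / 2 := by rw [pow_succ]; ring
    by_cases h0 : p 0 = p' 0
    · rw [h0]
      have e : sgb (p' 0) + val A (fun i => p (i + 1)) / 2 - (sgb (p' 0) + val A (fun i => p' (i + 1)) / 2)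
          = (val A (fun i => p (i + 1)) - val A (fun i => p' (i + 1))) / 2 := by ring
      rw [e, abs_div, abs_of_pos (by norm_num : (0 : ℝ) < 2), hpow]
      have := ih (fun i => p (i + 1)) (fun i => p' (i + 1)) (by
        refine ⟨i - 1, ?_, ?_⟩
        · omega
        · have hi0 : i ≠ 0 := by
            rintro rfl; exact hne h0
          have : i - 1 + 1 = i := by omega
          simp only [this]; exact hne)
      linarith
    · have h3 : sgb (p 0) - sgb (p' 0) = 2 ∨ sgb (p 0) - sgb (p' 0) = -2 := by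
        unfold sgb
        cases h1 : p 0 <;> cases h2 : p' 0 <;> simp_all <;> norm_num
      rw [hpow]
      rcases h3 with h3 | h3
      · rw [le_abs]; left; linarith
      · rw [le_abs]; right; linarith

/-! ### The sequence -/

/-- The ratio `ρ = 4 · 2^{-A}`. -/
noncomputable def rho (A : ℕ) : ℝ := 4 * (1 / 2) ^ A

/-- The sizes `δ_g`. -/
noncomputable def dl (g : ℕ) : ℝ := 1 / ((g : ℝ) + 1)

/-- Rapidly increasing break points. -/
structure Breaks (A : ℕ) (b : ℕ → ℕ) : Prop where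
  zero : b 0 = 0
  grow : ∀ k, 8 * (A + 1) * (b k + 1) ≤ b (k + 1)
  harm : ∀ k, 100 * ((b k : ℝ) + 1) * ((rho A)⁻¹) ^ (b k)
    ≤ ∑ g ∈ Finset.Ico (b k) (b (k + 1)), dl g

lemma exists_next (s : ℕ) (x : ℝ) (m : ℕ) : ∃ t, m ≤ t ∧ x ≤ ∑ g ∈ Finset.Ico s t, dl g := by
  have h1 : Tendsto (fun n => ∑ g ∈ Finset.range n, dl g) atTop atTop :=
    Real.tendsto_sum_range_one_div_nat_succ_atTop
  obtain ⟨t, ht⟩ := (h1.eventually_ge_atTop (x + ∑ g ∈ Finset.range s, dl g)).exists_forall_of_atTop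
  refine ⟨max t (max s m), by omega, ?_⟩
  have h2 := ht (max t (max s m)) (le_max_left _ _)
  rw [Finset.sum_Ico_eq_sub _ (by omega : s ≤ max t (max s m))]
  linarith

lemma exists_breaks (A : ℕ) : ∃ b, Breaks A b := by
  have h := fun s : ℕ => exists_next s (100 * ((s : ℝ) + 1) * ((rho A)⁻¹) ^ s) (8 * (A + 1) * (s + 1))
  choose f hf1 hf2 using h
  refine ⟨fun k => f^[k] 0, rfl, fun k => ?_, fun k => ?_⟩
  · rw [Function.iterate_succ_apply']; exact hf1 _
  · rw [Function.iterate_succ_apply']; exact hf2 _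

section

variable {A : ℕ} {b : ℕ → ℕ}

lemma Breaks.lt (hb : Breaks A b) (k : ℕ) : b k < b (k + 1) := by
  have := hb.grow k
  nlinarith

lemma Breaks.mono (hb : Breaks A b) : StrictMono b := strictMono_nat_of_lt_succ hb.lt

/-- A step is flat if it lies in a block `[b (2j+1), b (2j+2))`. -/
def flat (b : ℕ → ℕ) (g : ℕ) : Prop := ∃ j, b (2 * j + 1) ≤ g ∧ g < b (2 * j + 2)

lemma flat_of (j g : ℕ) (h1 : b (2 * j + 1) ≤ g) (h2 : g < b (2 * j + 2)) : flat b g := ⟨j, h1, h2⟩

lemma not_flat_of (hb : Breaks A b) (j g : ℕ) (h1 : b (2 * j) ≤ g) (h2 : g < b (2 * j + 1)) :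
    ¬ flat b g := by
  rintro ⟨i, h3, h4⟩
  have h5 : 2 * i + 1 < 2 * j + 1 := hb.mono.lt_iff_lt.mp (lt_of_le_of_lt h3 h2)
  have h6 : 2 * j < 2 * i + 2 := hb.mono.lt_iff_lt.mp (lt_of_le_of_lt h1 h4)
  omega

open Classical in
/-- The slopes. -/
noncomputable def W (A : ℕ) (b : ℕ → ℕ) : ℕ → ℝ
  | 0 => 1
  | g + 1 => if flat b g then W A b g else rho A * W A b g

/-- The sequence of vectors. -/
noncomputable def vec (A : ℕ) (b : ℕ → ℕ) (n : ℕ) : ℝ × ℝ :=
  (dl (n / (A + 1)) * (1 / 2) ^ (n % (A + 1))) • ((1 : ℝ), W A b (n / (A + 1)))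

lemma W_flat {g : ℕ} (h : flat b g) : W A b (g + 1) = W A b g := by
  rw [W, if_pos h]

lemma W_not_flat {g : ℕ} (h : ¬ flat b g) : W A b (g + 1) = rho A * W A b g := by
  rw [W, if_neg h]

lemma rho_pos (A : ℕ) : 0 < rho A := by unfold rho; positivity

lemma rho_le (hA : 4 ≤ A) : rho A ≤ 1 / 4 := by
  unfold rho
  have : (1 / 2 : ℝ) ^ A ≤ (1 / 2) ^ 4 := pow_le_pow_of_le_one (by norm_num) (by norm_num) hA
  norm_num at this ⊢
  linarith

lemma W_pos (g : ℕ) : 0 < W A b g := by
  induction g with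
  | zero => simp [W]
  | succ g ih =>
    by_cases h : flat b g
    · rw [W_flat h]; exact ih
    · rw [W_not_flat h]; exact mul_pos (rho_pos A) ih

lemma W_anti_step (hA : 4 ≤ A) (g : ℕ) : W A b (g + 1) ≤ W A b g := by
  by_cases h : flat b g
  · rw [W_flat h]
  · rw [W_not_flat h]
    have := W_pos (A := A) (b := b) g
    nlinarith [rho_le hA]

lemma W_anti (hA : 4 ≤ A) : Antitone (W A b) := antitone_nat_of_succ_le (W_anti_step hA)

lemma W_le_one (hA : 4 ≤ A) (g : ℕ) : W A b g ≤ 1 := by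
  have := W_anti (b := b) hA (Nat.zero_le g)
  simpa [W] using this

lemma W_ge (hA : 4 ≤ A) (g : ℕ) : (rho A) ^ g ≤ W A b g := by
  induction g with
  | zero => simp [W]
  | succ g ih =>
    have h0 := W_pos (A := A) (b := b) g
    have h1 := rho_pos A
    have h2 := rho_le hA
    by_cases h : flat b g
    · rw [W_flat h, pow_succ]
      have h3 : (0 : ℝ) < rho A ^ g := by positivity
      nlinarith
    · rw [W_not_flat h, pow_succ]
      nlinarith

lemma W_const {s g : ℕ} (hsg : s ≤ g) (h : ∀ i, s ≤ i → i < g → flat b i) :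
    W A b g = W A b s := by
  induction g, hsg using Nat.le_induction with
  | base => rfl
  | succ g hg ih =>
    rw [W_flat (h g hg (Nat.lt_succ_self g)), ih (fun i h1 h2 => h i h1 (by omega))]

lemma dl_pos (g : ℕ) : 0 < dl g := by unfold dl; positivity

lemma dl_le_one (g : ℕ) : dl g ≤ 1 := by
  unfold dl
  rw [div_le_one (by positivity)]
  linarith [(Nat.cast_nonneg g : (0 : ℝ) ≤ g)]

lemma dl_anti : Antitone dl := by
  intro m n h
  unfold dl
  apply one_div_le_one_div_of_le (by positivity)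
  have : (m : ℝ) ≤ n := by exact_mod_cast h
  linarith

lemma dl_half (g : ℕ) : dl g ≤ 2 * dl (g + 1) := by
  unfold dl
  rw [mul_one_div, div_le_div_iff₀ (by positivity) (by positivity)]
  push_cast
  linarith [(Nat.cast_nonneg g : (0 : ℝ) ≤ g)]

lemma dl_tendsto : Tendsto dl atTop (𝓝 0) := tendsto_one_div_add_atTop_nhds_zero_nat

/-! ### Steering -/

/-- The sign of a real number, never zero. -/
noncomputable def sgr (x : ℝ) : ℝ := if 0 ≤ x then 1 else -1

lemma abs_sgr (x : ℝ) : |sgr x| = 1 := by unfold sgr; split_ifs <;> norm_num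

lemma sgr_mul (x : ℝ) : sgr x * x = |x| := by
  unfold sgr
  split_ifs with h
  · rw [abs_of_nonneg h, one_mul]
  · rw [abs_of_neg (by linarith)]; ring

/-- The normalised remaining second coordinate. -/
noncomputable def u (A : ℕ) (b : ℕ → ℕ) (Y : ℕ → ℝ) (g : ℕ) : ℝ := Y g / (W A b g * dl g)

/-- The steering rules. -/
structure Steer (A : ℕ) (b : ℕ → ℕ) (e : ℕ) (X Y D : ℕ → ℝ) : Prop where
  hX : ∀ g, X (g + 1) = X g - dl g * D g
  hY : ∀ g, Y (g + 1) = Y g - dl g * W A b g * D g
  hD : ∀ g, |D g| ≤ 2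
  h1 : ∀ g, g < e → |max (-1) (min 1 (u A b Y g)) - D g| ≤ (1 / 2) ^ A
  h2 : ∀ g, e ≤ g → flat b g → |u A b Y g| ≤ 2 → |u A b Y g - D g| ≤ (1 / 2) ^ A
  h3 : ∀ g, e ≤ g → ¬ flat b g → |u A b Y g - sgr (X g) * (rho A * dl (g + 1) / dl g)| ≤ 2 →
    |u A b Y g - sgr (X g) * (rho A * dl (g + 1) / dl g) - D g| ≤ (1 / 2) ^ A

lemma q_le (hA : 4 ≤ A) : (1 / 2 : ℝ) ^ A ≤ 1 / 16 := by
  have : (1 / 2 : ℝ) ^ A ≤ (1 / 2) ^ 4 := pow_le_pow_of_le_one (by norm_num) (by norm_num) hA
  norm_num at this ⊢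
  linarith

lemma rho_eq (A : ℕ) : rho A = 4 * (1 / 2) ^ A := rfl

variable {e : ℕ} {X Y D : ℕ → ℝ}

lemma Y_eq (g : ℕ) : Y g = u A b Y g * (W A b g * dl g) := by
  have h1 := W_pos (A := A) (b := b) g
  have h2 := dl_pos g
  unfold u
  field_simp

lemma Steer.Y_succ (S : Steer A b e X Y D) (g : ℕ) :
    Y (g + 1) = W A b g * dl g * (u A b Y g - D g) := by
  rw [S.hY, Y_eq (A := A) (b := b) (Y := Y) g]
  have h1 := W_pos (A := A) (b := b) g
  have h2 := dl_pos g
  ring

lemma abs_Y (g : ℕ) : |Y g| = |u A b Y g| * (W A b g * dl g) := by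
  have h1 := W_pos (A := A) (b := b) g
  have h2 := dl_pos g
  rw [Y_eq (A := A) (b := b) (Y := Y) g, abs_mul, abs_of_pos (mul_pos h1 h2)]

/-- Phase 1: once small, always small. -/
lemma Steer.phase1_small (S : Steer A b e X Y D) (hA : 4 ≤ A) {g : ℕ} (hg : g < e)
    (hf : flat b g) (h : |Y g| ≤ W A b g * dl g) :
    |Y (g + 1)| ≤ W A b (g + 1) * dl (g + 1) := by
  have hW := W_pos (A := A) (b := b) g
  have hd := dl_pos g
  have hq := q_le hA
  have hwd : 0 < W A b g * dl g := mul_pos hW hd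
  have hu : |u A b Y g| ≤ 1 := by
    unfold u
    rw [abs_div, abs_of_pos hwd, div_le_one hwd]
    exact h
  rw [abs_le] at hu
  have hcl : max (-1) (min 1 (u A b Y g)) = u A b Y g := by
    rw [min_eq_right hu.2, max_eq_right hu.1]
  have h1 := S.h1 g hg
  rw [hcl] at h1
  rw [S.Y_succ, abs_mul, abs_of_pos hwd, W_flat hf]
  have h2 := dl_half g
  have h3 : W A b g * dl g * |u A b Y g - D g| ≤ W A b g * dl g * (1 / 16) :=
    mul_le_mul_of_nonneg_left (h1.trans hq) hwd.le
  have h4 := dl_pos (g + 1)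
  nlinarith

/-- Phase 1: progress. -/
lemma Steer.phase1_progress (S : Steer A b e X Y D) (hA : 4 ≤ A) {g : ℕ} (hg : g < e)
    (h : W A b g * dl g < |Y g|) : |Y (g + 1)| ≤ |Y g| - W A b g * dl g / 2 := by
  have hW := W_pos (A := A) (b := b) g
  have hd := dl_pos g
  have hq := q_le hA
  have hwd : 0 < W A b g * dl g := mul_pos hW hd
  have hYu : Y g = u A b Y g * (W A b g * dl g) := Y_eq g
  have hau : |Y g| = |u A b Y g| * (W A b g * dl g) := abs_Y g
  have hu : 1 < |u A b Y g| := by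
    rw [hau] at h
    by_contra hcon
    push Not at hcon
    nlinarith
  have h1 := S.h1 g hg
  rw [S.Y_succ, abs_mul, abs_of_pos hwd, hau]
  have key : |u A b Y g - D g| ≤ |u A b Y g| - 1 / 2 := by
    rcases lt_abs.mp hu with hu | hu
    · have hcl : max (-1) (min 1 (u A b Y g)) = 1 := by
        rw [min_eq_left hu.le, max_eq_right (by norm_num)]
      rw [hcl, abs_le] at h1
      rw [abs_of_pos (by linarith : 0 < u A b Y g), abs_le]
      constructor <;> linarith
    · have hcl : max (-1) (min 1 (u A b Y g)) = -1 := by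
        rw [min_eq_right (by linarith), max_eq_left (by linarith)]
      rw [hcl, abs_le] at h1
      rw [abs_of_neg (by linarith : u A b Y g < 0), abs_le]
      constructor <;> linarith
  nlinarith

lemma Steer.phase1 (S : Steer A b e X Y D) (hA : 4 ≤ A) {s : ℕ} (hse : s ≤ e)
    (hf : ∀ g, s ≤ g → g < e → flat b g)
    (hcap : 2 * |Y s| < W A b s * ∑ g ∈ Finset.Ico s e, dl g) :
    |Y e| ≤ W A b e * dl e := by
  by_contra hcon
  push Not at hcon
  -- never small
  have hbig : ∀ g, s ≤ g → g ≤ e → W A b g * dl g < |Y g| := by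
    intro g h1 h2
    by_contra hsm
    push Not at hsm
    have : ∀ k, g ≤ k → k ≤ e → |Y k| ≤ W A b k * dl k := by
      intro k hk
      induction k, hk using Nat.le_induction with
      | base => intro _; exact hsm
      | succ k hk ih =>
        intro hke
        exact S.phase1_small hA (by omega) (hf k (by omega) (by omega)) (ih (by omega))
    exact absurd (this e h2 le_rfl) (not_le.mpr hcon)
  have hdec : ∀ g, s ≤ g → g ≤ e →
      |Y g| ≤ |Y s| - W A b s / 2 * ∑ k ∈ Finset.Ico s g, dl k := by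
    intro g hg
    induction g, hg using Nat.le_induction with
    | base => intro _; simp
    | succ g hg ih =>
      intro hge
      have h1 := ih (by omega)
      have h2 := S.phase1_progress hA (by omega : g < e) (hbig g hg (by omega))
      rw [W_const hg (fun i h3 h4 => hf i h3 (by omega))] at h2
      rw [Finset.sum_Ico_succ_top hg]
      linarith
  have h1 := hdec e hse le_rfl
  have h2 := abs_nonneg (Y e)
  linarith

/-- Phase 2: the second coordinate stays controlled. -/
lemma Steer.flat_step (S : Steer A b e X Y D) (hA : 4 ≤ A) {g : ℕ} (hg : e ≤ g)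
    (hf : flat b g) (h : |Y g| ≤ 3 / 2 * (W A b g * dl g)) :
    |Y (g + 1)| ≤ 3 / 2 * (W A b (g + 1) * dl (g + 1)) := by
  have hW := W_pos (A := A) (b := b) g
  have hd := dl_pos g
  have hq := q_le hA
  have hwd : 0 < W A b g * dl g := mul_pos hW hd
  have hu : |u A b Y g| ≤ 3 / 2 := by
    unfold u
    rw [abs_div, abs_of_pos hwd, div_le_iff₀ hwd]
    exact h
  have h1 := S.h2 g hg hf (by linarith)
  rw [S.Y_succ, abs_mul, abs_of_pos hwd, W_flat hf]
  have h2 := dl_half g
  have h3 : W A b g * dl g * |u A b Y g - D g| ≤ W A b g * dl g * (1 / 16) :=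
    mul_le_mul_of_nonneg_left (h1.trans hq) hwd.le
  have h4 := dl_pos (g + 1)
  nlinarith

lemma lam_bound (hA : 4 ≤ A) (g : ℕ) : 0 < rho A * dl (g + 1) / dl g ∧
    rho A * dl (g + 1) / dl g ≤ rho A := by
  have h1 := dl_pos g
  have h2 := dl_pos (g + 1)
  have h3 := rho_pos A
  refine ⟨by positivity, ?_⟩
  rw [div_le_iff₀ h1]
  exact mul_le_mul_of_nonneg_left (dl_anti (Nat.le_succ g)) h3.le

lemma Steer.target (S : Steer A b e X Y D) (hA : 4 ≤ A) {g : ℕ} (hg : e ≤ g)
    (hf : ¬ flat b g) (h : |Y g| ≤ 3 / 2 * (W A b g * dl g)) :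
    |u A b Y g - sgr (X g) * (rho A * dl (g + 1) / dl g) - D g| ≤ (1 / 2) ^ A := by
  have hW := W_pos (A := A) (b := b) g
  have hd := dl_pos g
  have hwd : 0 < W A b g * dl g := mul_pos hW hd
  have hu : |u A b Y g| ≤ 3 / 2 := by
    unfold u
    rw [abs_div, abs_of_pos hwd, div_le_iff₀ hwd]
    exact h
  obtain ⟨hl1, hl2⟩ := lam_bound hA g
  have hr := rho_le hA
  apply S.h3 g hg hf
  calc |u A b Y g - sgr (X g) * (rho A * dl (g + 1) / dl g)|
      ≤ |u A b Y g| + |sgr (X g) * (rho A * dl (g + 1) / dl g)| := abs_sub _ _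
    _ ≤ 3 / 2 + 1 / 4 := by
        rw [abs_mul, abs_sgr, one_mul, abs_of_pos hl1]
        linarith
    _ ≤ 2 := by norm_num

lemma Steer.nonflat_u (S : Steer A b e X Y D) (hA : 4 ≤ A) {g : ℕ} (hg : e ≤ g)
    (hf : ¬ flat b g) (h : |Y g| ≤ 3 / 2 * (W A b g * dl g)) :
    |u A b Y (g + 1) - sgr (X g)| ≤ 1 / 2 := by
  have hW := W_pos (A := A) (b := b) g
  have hd := dl_pos g
  have hd' := dl_pos (g + 1)
  have hr := rho_pos A
  have h1 := S.target hA hg hf h
  have e1 : u A b Y (g + 1) - sgr (X g)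
      = (u A b Y g - sgr (X g) * (rho A * dl (g + 1) / dl g) - D g) * (dl g / (rho A * dl (g + 1))) := by
    unfold u
    rw [W_not_flat hf, S.hY]
    field_simp
    ring
  rw [e1, abs_mul, abs_of_pos (by positivity : 0 < dl g / (rho A * dl (g + 1)))]
  have h2 : dl g / (rho A * dl (g + 1)) ≤ 2 / rho A := by
    rw [div_le_div_iff₀ (by positivity) hr]
    have := dl_half g
    nlinarith
  calc |u A b Y g - sgr (X g) * (rho A * dl (g + 1) / dl g) - D g| * (dl g / (rho A * dl (g + 1)))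
      ≤ (1 / 2) ^ A * (2 / rho A) := mul_le_mul h1 h2 (by positivity) (by positivity)
    _ = 1 / 2 := by
        rw [rho_eq]
        field_simp
        norm_num

lemma Steer.nonflat_step (S : Steer A b e X Y D) (hA : 4 ≤ A) {g : ℕ} (hg : e ≤ g)
    (hf : ¬ flat b g) (h : |Y g| ≤ 3 / 2 * (W A b g * dl g)) :
    |Y (g + 1)| ≤ 3 / 2 * (W A b (g + 1) * dl (g + 1)) := by
  have h1 := S.nonflat_u hA hg hf h
  rw [abs_Y (A := A) (b := b) (Y := Y) (g + 1)]
  have h2 : |u A b Y (g + 1)| ≤ 3 / 2 := by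
    calc |u A b Y (g + 1)| = |(u A b Y (g + 1) - sgr (X g)) + sgr (X g)| := by congr 1; ring
      _ ≤ |u A b Y (g + 1) - sgr (X g)| + |sgr (X g)| := abs_add_le _ _
      _ ≤ 3 / 2 := by rw [abs_sgr]; linarith
  have hW := W_pos (A := A) (b := b) (g + 1)
  have hd := dl_pos (g + 1)
  exact mul_le_mul_of_nonneg_right h2 (by positivity)

lemma Steer.control (S : Steer A b e X Y D) (hA : 4 ≤ A)
    (he : |Y e| ≤ W A b e * dl e) : ∀ g, e ≤ g → |Y g| ≤ 3 / 2 * (W A b g * dl g) := by
  intro g hg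
  induction g, hg using Nat.le_induction with
  | base =>
    have hW := W_pos (A := A) (b := b) e
    have hd := dl_pos e
    have : 0 < W A b e * dl e := by positivity
    linarith
  | succ g hg ih =>
    by_cases hf : flat b g
    · exact S.flat_step hA hg hf ih
    · exact S.nonflat_step hA hg hf ih

/-- Progress of the first coordinate at two consecutive non-flat steps. -/
lemma Steer.progress (S : Steer A b e X Y D) (hA : 4 ≤ A)
    (hY : ∀ g, e ≤ g → |Y g| ≤ 3 / 2 * (W A b g * dl g)) {g : ℕ} (hg : e ≤ g)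
    (hf : ¬ flat b g) (hf' : ¬ flat b (g + 1)) :
    |X (g + 2)| ≤ max (8 * dl g) (|X (g + 1)| - dl (g + 1) / 8) := by
  have hd := dl_pos g
  have hd' := dl_pos (g + 1)
  have hda : dl (g + 1) ≤ dl g := dl_anti (Nat.le_succ g)
  have hDg := S.hD g
  have hDg' := S.hD (g + 1)
  have hX1 := S.hX g
  have hX2 := S.hX (g + 1)
  have h1 := S.nonflat_u hA hg hf (hY g hg)
  have h2 := S.target hA (by omega : e ≤ g + 1) hf' (hY (g + 1) (by omega))
  obtain ⟨hl1, hl2⟩ := lam_bound hA (g + 1)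
  have hq := q_le hA
  have hre := rho_eq A
  rw [abs_le] at hDg hDg' h1 h2
  have hq0 : (0 : ℝ) < (1 / 2) ^ A := by positivity
  set lam := rho A * dl (g + 1 + 1) / dl (g + 1) with hlam
  have hsl : |sgr (X (g + 1)) * lam| ≤ 1 / 4 := by
    rw [abs_mul, abs_sgr, one_mul, abs_of_pos hl1]
    have := rho_le hA
    linarith
  rw [abs_le] at hsl
  by_cases hbig : 4 * dl g < |X (g + 1)|
  · apply le_max_of_le_right
    rcases lt_abs.mp hbig with hpos | hneg
    · have hXg : 0 ≤ X g := by nlinarith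
      have hs : sgr (X g) = 1 := by unfold sgr; rw [if_pos hXg]
      rw [hs] at h1
      have hD1 : 1 / 8 ≤ D (g + 1) := by linarith
      rw [abs_of_pos (by linarith : 0 < X (g + 1)), hX2, abs_of_nonneg (by nlinarith)]
      nlinarith
    · have hXg : X g < 0 := by nlinarith
      have hs : sgr (X g) = -1 := by unfold sgr; rw [if_neg (not_le.mpr hXg)]
      rw [hs] at h1
      have hD1 : D (g + 1) ≤ -(1 / 8) := by linarith
      rw [abs_of_neg (by linarith : X (g + 1) < 0), hX2, abs_of_nonpos (by nlinarith)]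
      nlinarith
  · apply le_max_of_le_left
    push Not at hbig
    rw [abs_le] at hbig
    rw [hX2, abs_le]
    constructor <;> nlinarith

/-- The first coordinate moves by at most `2 δ_g`. -/
lemma Steer.X_step (S : Steer A b e X Y D) (g : ℕ) : |X (g + 1)| ≤ |X g| + 2 * dl g := by
  rw [S.hX]
  calc |X g - dl g * D g| ≤ |X g| + |dl g * D g| := abs_sub _ _
    _ ≤ |X g| + 2 * dl g := by
        rw [abs_mul, abs_of_pos (dl_pos g)]
        have := S.hD g
        nlinarith [dl_pos g]

lemma Steer.X_crude (S : Steer A b e X Y D) (g : ℕ) : |X g| ≤ |X 0| + 2 * g := by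
  induction g with
  | zero => simp
  | succ g ih =>
    have h1 := S.X_step g
    have h2 := dl_le_one g
    push_cast
    linarith

lemma Steer.Y_crude (S : Steer A b e X Y D) (hA : 4 ≤ A) (g : ℕ) : |Y g| ≤ |Y 0| + 2 * g := by
  induction g with
  | zero => simp
  | succ g ih =>
    have h2 := dl_le_one g
    have h3 := W_le_one (b := b) hA g
    have h4 := W_pos (A := A) (b := b) g
    have h5 := dl_pos g
    have h6 : |Y (g + 1)| ≤ |Y g| + 2 := by
      rw [S.hY]
      calc |Y g - dl g * W A b g * D g| ≤ |Y g| + |dl g * W A b g * D g| := abs_sub _ _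
        _ ≤ |Y g| + 2 := by
            rw [abs_mul, abs_of_pos (mul_pos h5 h4)]
            have h7 := S.hD g
            have h8 : dl g * W A b g ≤ 1 := by nlinarith
            have h9 : 0 ≤ |D g| := abs_nonneg _
            nlinarith
    push_cast
    linarith

/-- A long non-flat run makes the first coordinate small. -/
lemma Steer.run (S : Steer A b e X Y D) (hA : 4 ≤ A)
    (hY : ∀ g, e ≤ g → |Y g| ≤ 3 / 2 * (W A b g * dl g)) {s t : ℕ} (hs : e ≤ s) 
    (hf : ∀ g, s ≤ g → g < t → ¬ flat b g) :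
    (∀ g, s ≤ g → g ≤ t → |X g| ≤ max (8 * dl s) (|X s| + 2 * dl s)) ∧
    (s < t → 8 * (|X s| + 2 * dl s) < ∑ g ∈ Finset.Ico (s + 1) t, dl g → |X t| ≤ 8 * dl s) := by
  have hds := dl_pos s
  have step : ∀ g, s ≤ g → g + 2 ≤ t →
      |X (g + 2)| ≤ max (8 * dl s) (|X (g + 1)| - dl (g + 1) / 8) := by
    intro g h1 h2
    refine (S.progress hA hY (by omega : e ≤ g) (hf g h1 (by omega))
      (hf (g + 1) (by omega) (by omega))).trans ?_
    apply max_le_max_right
    have := dl_anti h1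
    linarith
  constructor
  · intro g hg
    induction g, hg using Nat.le_induction with
    | base =>
      intro _
      apply le_max_of_le_right
      linarith
    | succ g hg ih =>
      intro hgt
      rcases eq_or_lt_of_le hg with rfl | hlt
      · exact le_max_of_le_right (S.X_step _)
      · obtain ⟨k, rfl⟩ : ∃ k, g = k + 1 := ⟨g - 1, by omega⟩
        have h1 := step k (by omega) (by omega)
        have h2 := ih (by omega)
        refine h1.trans (max_le (le_max_left _ _) ?_)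
        have := dl_pos (k + 1)
        linarith
  · intro hst hcap
    by_contra hcon
    push Not at hcon
    have hbig : ∀ g, s + 1 ≤ g → g ≤ t → 8 * dl s < |X g| := by
      intro g h1 h2
      by_contra hsm
      push Not at hsm
      have : ∀ k, g ≤ k → k ≤ t → |X k| ≤ 8 * dl s := by
        intro k hk
        induction k, hk using Nat.le_induction with
        | base => intro _; exact hsm
        | succ k hk ih =>
          intro hkt
          obtain ⟨i, rfl⟩ : ∃ i, k = i + 1 := ⟨k - 1, by omega⟩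
          have h3 := step i (by omega) (by omega)
          have h4 := ih (by omega)
          refine h3.trans (max_le le_rfl ?_)
          have := dl_pos (i + 1)
          linarith
      exact absurd (this t h2 le_rfl) (not_le.mpr hcon)
    have hdec : ∀ g, s + 1 ≤ g → g ≤ t →
        |X g| ≤ |X s| + 2 * dl s - (∑ k ∈ Finset.Ico (s + 1) g, dl k) / 8 := by
      intro g hg
      induction g, hg using Nat.le_induction with
      | base =>
        intro _
        have := S.X_step s
        simp only [Finset.Ico_self, Finset.sum_empty]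
        linarith
      | succ g hg ih =>
        intro hgt
        obtain ⟨k, rfl⟩ : ∃ k, g = k + 1 := ⟨g - 1, by omega⟩
        have h1 := step k (by omega) (by omega)
        have h2 := ih (by omega)
        have h3 := hbig (k + 1 + 1) (by omega) hgt
        rw [Finset.sum_Ico_succ_top hg]
        rcases le_max_iff.mp h1 with h4 | h4
        · exact absurd h4 (not_le.mpr h3)
        · have e1 : k + 1 + 1 = k + 2 := rfl
          rw [e1]
          linarith
    have h1 := hdec t (by omega) le_rfl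
    have h2 := abs_nonneg (X t)
    linarith

/-- In a flat run the first coordinate hardly moves. -/
lemma Steer.flat_run (S : Steer A b e X Y D)
    (hY : ∀ g, e ≤ g → |Y g| ≤ 3 / 2 * (W A b g * dl g)) {s t : ℕ} (hs : e ≤ s)
    (hf : ∀ g, s ≤ g → g < t → flat b g) :
    ∀ g, s ≤ g → g ≤ t → |X g| ≤ |X s| + 3 * dl s := by
  have hw := W_pos (A := A) (b := b) s
  have key : ∀ g, s ≤ g → g ≤ t → W A b s * (X g - X s) = Y g - Y s := by
    intro g hg
    induction g, hg using Nat.le_induction with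
    | base => intro _; ring
    | succ g hg ih =>
      intro hgt
      have h1 := ih (by omega)
      have h2 := W_const (A := A) (b := b) hg (fun i h3 h4 => hf i h3 (by omega))
      rw [S.hX, S.hY, h2]
      linarith
  intro g h1 h2
  have h3 := key g h1 h2
  have h4 := W_const (A := A) (b := b) h1 (fun i h3 h4 => hf i h3 (by omega))
  have h5 := hY g (by omega)
  have h6 := hY s hs
  rw [h4] at h5
  have h7 := dl_anti h1
  have h8 : |X g - X s| * W A b s ≤ 3 * dl s * W A b s := by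
    calc |X g - X s| * W A b s = |W A b s * (X g - X s)| := by
          rw [abs_mul, abs_of_pos hw, mul_comm]
      _ = |Y g - Y s| := by rw [h3]
      _ ≤ |Y g| + |Y s| := abs_sub _ _
      _ ≤ 3 * dl s * W A b s := by nlinarith
  have h9 : |X g - X s| ≤ 3 * dl s := le_of_mul_le_mul_right h8 hw
  calc |X g| = |X s + (X g - X s)| := by congr 1; ring
    _ ≤ |X s| + |X g - X s| := abs_add_le _ _
    _ ≤ |X s| + 3 * dl s := by linarith

lemma Breaks.le_self (hb : Breaks A b) (k : ℕ) : k ≤ b k := hb.mono.le_apply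

lemma Breaks.locate (hb : Breaks A b) (g : ℕ) : ∃ k, b k ≤ g ∧ g < b (k + 1) := by
  induction g with
  | zero => exact ⟨0, by rw [hb.zero], by have := hb.lt 0; rw [hb.zero] at this; exact this⟩
  | succ g ih =>
    obtain ⟨k, h1, h2⟩ := ih
    by_cases h : g + 1 < b (k + 1)
    · exact ⟨k, by omega, h⟩
    · exact ⟨k + 1, by omega, by have := hb.lt (k + 1); omega⟩

/-- The first coordinate tends to zero. -/
lemma Steer.X_tendsto (S : Steer A b e X Y D) (hA : 4 ≤ A) (hb : Breaks A b)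
    (hY : ∀ g, e ≤ g → |Y g| ≤ 3 / 2 * (W A b g * dl g)) : Tendsto X atTop (𝓝 0) := by
  -- a threshold
  obtain ⟨j₀, hj₀⟩ : ∃ j₀ : ℕ, (e : ℝ) + |X 0| ≤ j₀ := exists_nat_ge _
  have hX0 := abs_nonneg (X 0)
  -- small at the end of each non-flat run
  have hend : ∀ j, j₀ ≤ j → |X (b (2 * j + 1))| ≤ 8 * dl (b (2 * j)) := by
    intro j hj
    have h1 : 2 * j ≤ b (2 * j) := hb.le_self _
    have hjr : (j₀ : ℝ) ≤ b (2 * j) := by
      have : j₀ ≤ b (2 * j) := by omega
      exact_mod_cast this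
    have he0 : (0 : ℝ) ≤ e := Nat.cast_nonneg e
    have heb : e ≤ b (2 * j) := by
      have : (e : ℝ) ≤ b (2 * j) := by linarith
      exact_mod_cast this
    have hlt := hb.lt (2 * j)
    apply (S.run hA hY heb (fun g h2 h3 => not_flat_of hb j g h2 h3)).2 hlt
    have hcr := S.X_crude (b (2 * j))
    have hh := hb.harm (2 * j)
    have hpow : 1 ≤ ((rho A)⁻¹) ^ (b (2 * j)) := by
      apply one_le_pow₀
      rw [one_le_inv₀ (rho_pos A)]
      linarith [rho_le hA]
    have hsum : ∑ g ∈ Finset.Ico (b (2 * j)) (b (2 * j + 1)), dl g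
        = dl (b (2 * j)) + ∑ g ∈ Finset.Ico (b (2 * j) + 1) (b (2 * j + 1)), dl g :=
      Finset.sum_eq_sum_Ico_succ_bot hlt _
    have hd1 := dl_le_one (b (2 * j))
    have hb0 : (0 : ℝ) ≤ b (2 * j) := Nat.cast_nonneg _
    rw [hsum] at hh
    nlinarith
  rw [Metric.tendsto_atTop]
  intro ε hε
  have hdt : Tendsto (fun j => 13 * dl (b (2 * j))) atTop (𝓝 0) := by
    have h1 : Tendsto (fun j => b (2 * j)) atTop atTop :=
      tendsto_atTop_mono (fun j => (by have := hb.le_self (2 * j); omega : j ≤ b (2 * j))) tendsto_id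
    have := (dl_tendsto.comp h1).const_mul 13
    simpa using this
  obtain ⟨j₁, hj₁⟩ := ((hdt.eventually (gt_mem_nhds hε)).and
    (eventually_ge_atTop j₀)).exists_forall_of_atTop
  refine ⟨b (2 * j₁ + 1), fun g hg => ?_⟩
  rw [Real.dist_eq, sub_zero]
  obtain ⟨k, hk1, hk2⟩ := hb.locate g
  have hk : 2 * j₁ + 1 ≤ k := by
    have := hb.mono.lt_iff_lt.mp (lt_of_le_of_lt hg hk2)
    omega
  -- the index j
  obtain ⟨j, hjj, hcase⟩ : ∃ j, j₁ ≤ j ∧ (k = 2 * j + 1 ∨ k = 2 * j + 2) :=
    ⟨(k - 1) / 2, by omega, by omega⟩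
  obtain ⟨hε1, hj0⟩ := hj₁ j hjj
  have he := hend j hj0
  have h1 : 2 * j ≤ b (2 * j) := hb.le_self _
  have he0 : (e : ℝ) ≤ j₀ := by linarith
  have he1 : e ≤ j₀ := by exact_mod_cast he0
  have heb : e ≤ b (2 * j + 1) := by
    have := hb.lt (2 * j)
    omega
  have hlt0 := hb.lt (2 * j)
  have hlt1 : b (2 * j + 1) < b (2 * j + 2) := hb.lt (2 * j + 1)
  have hdl1 : dl (b (2 * j + 1)) ≤ dl (b (2 * j)) := dl_anti hlt0.le
  have hflat := S.flat_run hY heb (t := b (2 * j + 2)) (fun g h2 h3 => flat_of j g h2 h3)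
  have hpos := dl_pos (b (2 * j))
  rcases hcase with rfl | rfl
  · have h2 := hflat g hk1 hk2.le
    linarith
  · have h2 := hflat (b (2 * j + 2)) hlt1.le le_rfl
    have h3 := (S.run hA hY (by omega : e ≤ b (2 * j + 2)) (t := b (2 * j + 3))
      (fun g h2 h3 => not_flat_of hb (j + 1) g h2 h3)).1 g hk1 hk2.le
    have hdl2 : dl (b (2 * j + 2)) ≤ dl (b (2 * j)) := dl_anti (hlt0.le.trans hlt1.le)
    rcases le_max_iff.mp h3 with h4 | h4
    · linarith
    · linarith

/-! ### Existence of steering sequences -/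

open Classical in
/-- A pattern close to the target. -/
noncomputable def near (A : ℕ) (x : ℝ) : ℕ → Bool :=
  if h : |x| ≤ 2 then (exists_near A x h).choose else fun _ => true

lemma near_spec (A : ℕ) {x : ℝ} (h : |x| ≤ 2) : |x - val A (near A x)| ≤ (1 / 2) ^ A := by
  unfold near
  rw [dif_pos h]
  exact (exists_near A x h).choose_spec

open Classical in
/-- The target. -/
noncomputable def tgt (A : ℕ) (b : ℕ → ℕ) (e g : ℕ) (z : ℝ × ℝ) : ℝ :=
  if g < e then max (-1) (min 1 (z.2 / (W A b g * dl g)))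
  else if flat b g then z.2 / (W A b g * dl g)
  else z.2 / (W A b g * dl g) - sgr z.1 * (rho A * dl (g + 1) / dl g)

/-- The state. -/
noncomputable def st (A : ℕ) (b : ℕ → ℕ) (e : ℕ) (L : ℝ × ℝ) : ℕ → ℝ × ℝ
  | 0 => L
  | g + 1 => st A b e L g - (dl g * val A (near A (tgt A b e g (st A b e L g)))) • ((1 : ℝ), W A b g)

lemma steer_st (A : ℕ) (b : ℕ → ℕ) (e : ℕ) (L : ℝ × ℝ) :
    Steer A b e (fun g => (st A b e L g).1) (fun g => (st A b e L g).2)
      (fun g => val A (near A (tgt A b e g (st A b e L g)))) where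
  hX g := by simp [st]
  hY g := by simp [st]; ring
  hD g := abs_val_le_two _ _
  h1 g hg := by
    have h : |max (-1) (min 1 ((st A b e L g).2 / (W A b g * dl g)))| ≤ 2 := by
      rw [abs_le]
      constructor
      · have := le_max_left (-1) (min 1 ((st A b e L g).2 / (W A b g * dl g)))
        linarith
      · apply max_le (by norm_num)
        have := min_le_left 1 ((st A b e L g).2 / (W A b g * dl g))
        linarith
    have h2 := near_spec A h
    have e1 : tgt A b e g (st A b e L g)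
        = max (-1) (min 1 ((st A b e L g).2 / (W A b g * dl g))) := by
      unfold tgt; rw [if_pos hg]
    rw [e1]
    exact h2
  h2 g hg hf h := by
    have e1 : tgt A b e g (st A b e L g) = (st A b e L g).2 / (W A b g * dl g) := by
      unfold tgt; rw [if_neg (by omega), if_pos hf]
    rw [e1]
    exact near_spec A h
  h3 g hg hf h := by
    have e1 : tgt A b e g (st A b e L g) = (st A b e L g).2 / (W A b g * dl g)
        - sgr (st A b e L g).1 * (rho A * dl (g + 1) / dl g) := by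
      unfold tgt; rw [if_neg (by omega), if_neg hf]
    rw [e1]
    exact near_spec A h

lemma st_tendsto (hA : 4 ≤ A) (hb : Breaks A b) (L : ℝ × ℝ) :
    ∃ e, Tendsto (st A b e L) atTop (𝓝 0) := by
  obtain ⟨j, hj⟩ := exists_nat_ge |L.2|
  refine ⟨b (2 * j + 2), ?_⟩
  set e := b (2 * j + 2) with he
  have S := steer_st A b e L
  set s := b (2 * j + 1) with hs
  have hse : s < e := hb.lt (2 * j + 1)
  have hjs : (j : ℝ) ≤ s := by
    have : j ≤ s := by have := hb.le_self (2 * j + 1); omega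
    exact_mod_cast this
  have hYe := S.phase1 hA hse.le (fun g h1 h2 => flat_of j g h1 h2) (by
    have h1 := S.Y_crude hA s
    have h2 : |(st A b e L 0).2| = |L.2| := rfl
    rw [h2] at h1
    have h3 := hb.harm (2 * j + 1)
    have h4 := W_ge (b := b) hA s
    have hr := rho_pos A
    have h5 : (0 : ℝ) < (rho A)⁻¹ ^ s := by positivity
    have h6 : (rho A)⁻¹ ^ s * (rho A) ^ s = 1 := by
      rw [← mul_pow, inv_mul_cancel₀ hr.ne', one_pow]
    have h7 : 1 ≤ (rho A)⁻¹ ^ s * W A b s := by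
      rw [← h6]
      exact mul_le_mul_of_nonneg_left h4 h5.le
    have hs0 : (0 : ℝ) ≤ s := Nat.cast_nonneg s
    have hW := W_pos (A := A) (b := b) s
    calc 2 * |(st A b e L s).2| ≤ 2 * (|L.2| + 2 * s) := by linarith
      _ < 100 * ((s : ℝ) + 1) := by linarith
      _ ≤ 100 * ((s : ℝ) + 1) * ((rho A)⁻¹ ^ s * W A b s) := by
          nlinarith
      _ = W A b s * (100 * ((s : ℝ) + 1) * (rho A)⁻¹ ^ s) := by ring
      _ ≤ W A b s * ∑ g ∈ Finset.Ico s e, dl g := mul_le_mul_of_nonneg_left h3 hW.le)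
  have hctrl := S.control hA hYe
  have hX := S.X_tendsto hA hb hctrl
  have hY : Tendsto (fun g => (st A b e L g).2) atTop (𝓝 0) := by
    have h1 : Tendsto (fun g => 3 / 2 * dl g) atTop (𝓝 0) := by
      have := dl_tendsto.const_mul (3 / 2 : ℝ)
      simpa using this
    apply squeeze_zero_norm' _ h1
    filter_upwards [eventually_ge_atTop e] with g hg
    rw [Real.norm_eq_abs]
    have h2 := hctrl g hg
    have h3 := W_le_one (b := b) hA g
    have h4 := dl_pos g
    nlinarith
  exact hX.prodMk_nhds hY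

/-! ### Every target is attained -/

/-- The block value of a sign sequence. -/
noncomputable def bval (A : ℕ) (ε : Om) (g : ℕ) : ℝ := val A (fun i => ε ((A + 1) * g + i))

lemma sg_eq (ε : Om) (n : ℕ) : sg ε n = sgb (ε n) := rfl

lemma block_sum (A : ℕ) (b : ℕ → ℕ) (ε : Om) (g : ℕ) :
    ∑ i ∈ Finset.range (A + 1), sg ε ((A + 1) * g + i) • vec A b ((A + 1) * g + i)
      = (dl g * bval A ε g) • ((1 : ℝ), W A b g) := by
  have h : ∀ i ∈ Finset.range (A + 1), sg ε ((A + 1) * g + i) • vec A b ((A + 1) * g + i)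
      = (dl g * (sgb (ε ((A + 1) * g + i)) * (1 / 2) ^ i)) • ((1 : ℝ), W A b g) := by
    intro i hi
    rw [Finset.mem_range] at hi
    have h1 : ((A + 1) * g + i) / (A + 1) = g := by
      rw [Nat.mul_add_div (by omega), Nat.div_eq_of_lt hi, add_zero]
    have h2 : ((A + 1) * g + i) % (A + 1) = i := by
      rw [Nat.mul_add_mod]; exact Nat.mod_eq_of_lt hi
    unfold vec
    rw [h1, h2, sg_eq, smul_smul]
    congr 1
    ring
  rw [Finset.sum_congr rfl h, ← Finset.sum_smul, ← Finset.mul_sum]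
  rfl

lemma vec_tendsto (hA : 4 ≤ A) : Tendsto (vec A b) atTop (𝓝 0) := by
  have h1 : Tendsto (fun n => dl (n / (A + 1))) atTop (𝓝 0) :=
    dl_tendsto.comp (Nat.tendsto_div_const_atTop (by omega))
  apply squeeze_zero_norm _ h1
  intro n
  unfold vec
  rw [norm_smul, Prod.norm_def]
  have h2 := dl_pos (n / (A + 1))
  have h3 := W_pos (A := A) (b := b) (n / (A + 1))
  have h4 := W_le_one (b := b) hA (n / (A + 1))
  have h5 : (1 / 2 : ℝ) ^ (n % (A + 1)) ≤ 1 := pow_le_one₀ (by norm_num) (by norm_num)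
  have h6 : max ‖(1 : ℝ)‖ ‖W A b (n / (A + 1))‖ ≤ 1 := by
    apply max_le
    · simp
    · rw [Real.norm_of_nonneg h3.le]; exact h4
  rw [Real.norm_of_nonneg (by positivity)]
  calc dl (n / (A + 1)) * (1 / 2) ^ (n % (A + 1)) * max ‖(1 : ℝ)‖ ‖W A b (n / (A + 1))‖
      ≤ dl (n / (A + 1)) * 1 * 1 := by
        apply mul_le_mul _ h6 (le_max_of_le_left (norm_nonneg _)) (by positivity)
        exact mul_le_mul_of_nonneg_left h5 h2.le
    _ = dl (n / (A + 1)) := by ring

lemma EL_nonempty (hA : 4 ≤ A) (hb : Breaks A b) (L : ℝ × ℝ) : (EL (vec A b) L).Nonempty := by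
  obtain ⟨e, he⟩ := st_tendsto hA hb L
  set ε : Om := fun n => near A (tgt A b e (n / (A + 1)) (st A b e L (n / (A + 1)))) (n % (A + 1))
    with hε
  refine ⟨ε, ?_⟩
  have hu : Tendsto (fun n => sg ε n • vec A b n) atTop (𝓝 0) := by
    have h3 := (vec_tendsto (b := b) hA).norm
    rw [norm_zero] at h3
    apply squeeze_zero_norm _ h3
    intro n
    rw [norm_smul, Real.norm_eq_abs, sg_eq, abs_sgb, one_mul]
  apply tendsto_of_blocks hu (K := A + 1) (by omega)
  have hval : ∀ g, bval A ε g = val A (near A (tgt A b e g (st A b e L g))) := by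
    intro g
    unfold bval val
    apply Finset.sum_congr rfl
    intro i hi
    rw [Finset.mem_range] at hi
    have h1 : ((A + 1) * g + i) / (A + 1) = g := by
      rw [Nat.mul_add_div (by omega), Nat.div_eq_of_lt hi, add_zero]
    have h2 : ((A + 1) * g + i) % (A + 1) = i := by
      rw [Nat.mul_add_mod]; exact Nat.mod_eq_of_lt hi
    rw [hε]
    simp only [h1, h2]
  have hsum : ∀ N, ∑ n ∈ Finset.range ((A + 1) * N), sg ε n • vec A b n = L - st A b e L N := by
    intro N
    rw [sum_blocks]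
    induction N with
    | zero => simp [st]
    | succ N ih =>
      rw [Finset.sum_range_succ, ih, block_sum, hval, st]
      abel
  simp only [hsum]
  have := he.const_sub L
  simpa using this

/-! ### The upper bound for the dimension -/

/-- The remainder before block `g`. -/
noncomputable def rem (A : ℕ) (b : ℕ → ℕ) (L : ℝ × ℝ) (ε : Om) (g : ℕ) : ℝ × ℝ :=
  L - ∑ h ∈ Finset.range g, (dl h * bval A ε h) • ((1 : ℝ), W A b h)

lemma rem_fst_succ (L : ℝ × ℝ) (ε : Om) (g : ℕ) :
    (rem A b L ε (g + 1)).1 = (rem A b L ε g).1 - dl g * bval A ε g := by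
  unfold rem
  rw [Finset.sum_range_succ]
  simp only [Prod.fst_sub, Prod.fst_add, Prod.smul_fst, smul_eq_mul, mul_one]
  ring

lemma rem_snd_succ (L : ℝ × ℝ) (ε : Om) (g : ℕ) :
    (rem A b L ε (g + 1)).2 = (rem A b L ε g).2 - W A b g * (dl g * bval A ε g) := by
  unfold rem
  rw [Finset.sum_range_succ]
  simp only [Prod.snd_sub, Prod.snd_add, Prod.smul_snd, smul_eq_mul]
  ring

lemma rem_tendsto {L : ℝ × ℝ} {ε : Om} (h : ε ∈ EL (vec A b) L) :
    Tendsto (rem A b L ε) atTop (𝓝 0) := by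
  have h1 : Tendsto (fun N => ∑ n ∈ Finset.range ((A + 1) * N), sg ε n • vec A b n) atTop (𝓝 L) := by
    have h2 : Tendsto (fun N : ℕ => (A + 1) * N) atTop atTop :=
      tendsto_atTop_mono (fun N => (by nlinarith : N ≤ (A + 1) * N)) tendsto_id
    exact h.comp h2
  have h3 := h1.const_sub L
  rw [sub_self] at h3
  refine h3.congr fun N => ?_
  rw [sum_blocks]
  unfold rem
  congr 1
  apply Finset.sum_congr rfl
  intro g _
  exact block_sum A b ε g

/-- The sequences whose first remainder is at most one from the group `b (2 j₀)` on. -/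
def EJ (A : ℕ) (b : ℕ → ℕ) (L : ℝ × ℝ) (j₀ : ℕ) : Set Om :=
  {ε | ε ∈ EL (vec A b) L ∧ ∀ g, b (2 * j₀) ≤ g → |(rem A b L ε g).1| ≤ 1}

lemma EL_subset (hb : Breaks A b) (L : ℝ × ℝ) : EL (vec A b) L ⊆ ⋃ j₀, EJ A b L j₀ := by
  intro ε hε
  have h1 := ((continuous_fst.tendsto (0 : ℝ × ℝ)).comp (rem_tendsto hε)).abs
  simp only [Prod.fst_zero, abs_zero] at h1
  obtain ⟨g₀, hg₀⟩ := (h1.eventually (gt_mem_nhds one_pos)).exists_forall_of_atTop
  rw [Set.mem_iUnion]
  refine ⟨g₀, hε, fun g hg => ?_⟩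
  have := hb.le_self (2 * g₀)
  exact (hg₀ g (by omega)).le

/-- Abel summation bound. -/
lemma tail_bound (hA : 4 ≤ A) {L : ℝ × ℝ} {ε : Om} (hε : ε ∈ EL (vec A b) L) {t : ℕ}
    (h : ∀ g, t ≤ g → |(rem A b L ε g).1| ≤ 1) : |(rem A b L ε t).2| ≤ 2 * W A b t := by
  set X := fun g => (rem A b L ε g).1 with hX
  set Y := fun g => (rem A b L ε g).2 with hY
  have key : ∀ N, t ≤ N → |Y t - Y N + W A b N * X N| ≤ 2 * W A b t - W A b N := by
    intro N hN
    induction N, hN using Nat.le_induction with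
    | base =>
      have h1 := h t le_rfl
      have h2 := W_pos (A := A) (b := b) t
      rw [sub_self, zero_add, abs_mul, abs_of_pos h2]
      have h3 : |X t| ≤ 1 := h1
      nlinarith
    | succ N hN ih =>
      have h1 := h (N + 1) (by omega)
      have h2 := W_anti_step (b := b) hA N
      have h3 : Y (N + 1) = Y N - W A b N * (dl N * bval A ε N) := rem_snd_succ L ε N
      have h4 : X (N + 1) = X N - dl N * bval A ε N := rem_fst_succ L ε N
      have h5 : |X (N + 1)| ≤ 1 := h1
      have e1 : Y t - Y (N + 1) + W A b (N + 1) * X (N + 1)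
          = (Y t - Y N + W A b N * X N) - (W A b N - W A b (N + 1)) * X (N + 1) := by
        have h6 : dl N * bval A ε N = X N - X (N + 1) := by linarith
        rw [h3, h6]
        ring
      rw [e1]
      calc |(Y t - Y N + W A b N * X N) - (W A b N - W A b (N + 1)) * X (N + 1)|
          ≤ |Y t - Y N + W A b N * X N| + |(W A b N - W A b (N + 1)) * X (N + 1)| := abs_sub _ _
        _ ≤ (2 * W A b t - W A b N) + (W A b N - W A b (N + 1)) := by
            apply add_le_add ih
            rw [abs_mul, abs_of_nonneg (by linarith)]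
            nlinarith
        _ = 2 * W A b t - W A b (N + 1) := by ring
  have ht := rem_tendsto hε
  have hXt : Tendsto X atTop (𝓝 0) := (continuous_fst.tendsto (0 : ℝ × ℝ)).comp ht
  have hYt : Tendsto Y atTop (𝓝 0) := (continuous_snd.tendsto (0 : ℝ × ℝ)).comp ht
  have hWX : Tendsto (fun N => W A b N * X N) atTop (𝓝 0) := by
    apply squeeze_zero_norm _ (by simpa using hXt.norm : Tendsto (fun N => ‖X N‖) atTop (𝓝 0))
    intro N
    rw [norm_mul, Real.norm_of_nonneg (W_pos (A := A) (b := b) N).le]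
    have := W_le_one (b := b) hA N
    nlinarith [norm_nonneg (X N)]
  have hlim : Tendsto (fun N => |Y t - Y N + W A b N * X N|) atTop (𝓝 |Y t - 0 + 0|) :=
    ((hYt.const_sub (Y t)).add hWX).abs
  have h7 : |Y t - 0 + 0| ≤ 2 * W A b t := by
    apply le_of_tendsto hlim
    filter_upwards [eventually_ge_atTop t] with N hN
    have h8 := key N hN
    have h9 := W_pos (A := A) (b := b) N
    linarith
  simpa using h7

/-- Going backwards through a non-flat run. -/
lemma back_bound (hA : 4 ≤ A) {L : ℝ × ℝ} {ε : Om} {s t : ℕ}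
    (hf : ∀ g, s ≤ g → g < t → ¬ flat b g) (ht : |(rem A b L ε t).2| ≤ 2 * W A b t) :
    ∀ k, s + k ≤ t → |(rem A b L ε (t - k)).2| ≤ W A b (t - k) * (2 * rho A ^ k + 3 * dl (t - k)) := by
  intro k
  induction k with
  | zero =>
    intro _
    have h1 := W_pos (A := A) (b := b) t
    have h2 := dl_pos t
    simp only [Nat.sub_zero, pow_zero, mul_one]
    nlinarith
  | succ k ih =>
    intro hk
    have h1 := ih (by omega)
    have e1 : t - k = (t - (k + 1)) + 1 := by omega
    set g := t - (k + 1) with hg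
    rw [e1] at h1
    have hfg := hf g (by omega) (by omega)
    rw [W_not_flat hfg] at h1
    have h2 := rem_snd_succ (A := A) (b := b) L ε g
    have hW := W_pos (A := A) (b := b) g
    have hd := dl_pos g
    have hd' := dl_pos (g + 1)
    have hda : dl (g + 1) ≤ dl g := dl_anti (Nat.le_succ g)
    have hr := rho_pos A
    have hr' := rho_le hA
    have hv : |bval A ε g| ≤ 2 := abs_val_le_two _ _
    have h3 : |W A b g * (dl g * bval A ε g)| ≤ W A b g * (2 * dl g) := by
      rw [abs_mul, abs_of_pos hW, abs_mul, abs_of_pos hd]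
      apply mul_le_mul_of_nonneg_left _ hW.le
      nlinarith
    calc |(rem A b L ε g).2| = |(rem A b L ε (g + 1)).2 + W A b g * (dl g * bval A ε g)| := by
          rw [h2]; congr 1; ring
      _ ≤ |(rem A b L ε (g + 1)).2| + |W A b g * (dl g * bval A ε g)| := abs_add_le _ _
      _ ≤ rho A * W A b g * (2 * rho A ^ k + 3 * dl (g + 1)) + W A b g * (2 * dl g) :=
          add_le_add h1 h3
      _ = W A b g * (2 * (rho A ^ k * rho A) + (3 * rho A * dl (g + 1) + 2 * dl g)) := by ring
      _ ≤ W A b g * (2 * rho A ^ (k + 1) + 3 * dl g) := by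
          rw [← pow_succ]
          apply mul_le_mul_of_nonneg_left _ hW.le
          nlinarith

lemma pow_quarter {g t : ℕ} (h : 2 * (g + 1) ≤ t) {r : ℝ} (hr0 : 0 < r) (hr : r ≤ 1 / 4) :
    2 * r ^ (t - (g + 1)) ≤ dl g := by
  have h1 : r ^ (t - (g + 1)) ≤ (1 / 2) ^ t := by
    calc r ^ (t - (g + 1)) ≤ (1 / 4 : ℝ) ^ (t - (g + 1)) := pow_le_pow_left₀ hr0.le hr _
      _ = ((1 / 2 : ℝ) ^ 2) ^ (t - (g + 1)) := by norm_num
      _ = (1 / 2 : ℝ) ^ (2 * (t - (g + 1))) := by rw [← pow_mul]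
      _ ≤ (1 / 2) ^ t := pow_le_pow_of_le_one (by norm_num) (by norm_num) (by omega)
  unfold dl
  rw [le_div_iff₀ (by positivity)]
  have h2 : ((t : ℕ) : ℝ) ≤ 2 ^ t := by exact_mod_cast Nat.lt_two_pow_self.le
  have h3 : (2 : ℝ) * ((g : ℝ) + 1) ≤ t := by exact_mod_cast h
  have h4 : (1 / 2 : ℝ) ^ t * 2 ^ t = 1 := by rw [← mul_pow]; norm_num
  have h5 : (0 : ℝ) < (1 / 2) ^ t := by positivity
  calc 2 * r ^ (t - (g + 1)) * ((g : ℝ) + 1) ≤ 2 * (1 / 2) ^ t * ((g : ℝ) + 1) := by
        apply mul_le_mul_of_nonneg_right _ (by positivity)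
        linarith
    _ = (1 / 2) ^ t * (2 * ((g : ℝ) + 1)) := by ring
    _ ≤ (1 / 2) ^ t * 2 ^ t := mul_le_mul_of_nonneg_left (h3.trans h2) h5.le
    _ = 1 := h4

/-- The value of the block is determined up to few possibilities by the past. -/
lemma few_values (hA : 4 ≤ A) (hb : Breaks A b) {L : ℝ × ℝ} {j₀ j : ℕ} (hj : j₀ ≤ j) {ε : Om}
    (hε : ε ∈ EJ A b L j₀) {g : ℕ} (h1 : b (2 * j) ≤ g) (h2 : 2 * (g + 1) ≤ b (2 * j + 1)) :
    |u A b (fun g => (rem A b L ε g).2) g - bval A ε g| ≤ 16 * (1 / 2) ^ A := by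
  set t := b (2 * j + 1) with ht
  have hmono : b (2 * j₀) ≤ b (2 * j) := hb.mono.monotone (by omega)
  have hgt : g < t := by omega
  have htail := tail_bound hA hε.1 (t := t) (fun g hg => hε.2 g (by omega))
  have hback := back_bound hA (s := b (2 * j)) (t := t)
    (fun g h1 h2 => not_flat_of hb j g h1 h2) htail (t - (g + 1)) (by omega)
  have e1 : t - (t - (g + 1)) = g + 1 := by omega
  rw [e1] at hback
  have hfg : ¬ flat b g := not_flat_of hb j g h1 hgt
  rw [W_not_flat hfg] at hback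
  have hW := W_pos (A := A) (b := b) g
  have hd := dl_pos g
  have hr := rho_pos A
  have hr' := rho_le hA
  have hda : dl (g + 1) ≤ dl g := dl_anti (Nat.le_succ g)
  have hpq := pow_quarter h2 hr hr'
  have hwd : 0 < W A b g * dl g := mul_pos hW hd
  have e2 : (rem A b L ε (g + 1)).2
      = W A b g * dl g * (u A b (fun g => (rem A b L ε g).2) g - bval A ε g) := by
    rw [rem_snd_succ]
    unfold u
    field_simp
  rw [e2, abs_mul, abs_of_pos hwd] at hback
  have h3 : W A b g * dl g * |u A b (fun g => (rem A b L ε g).2) g - bval A ε g|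
      ≤ W A b g * dl g * (4 * rho A) := by
    calc _ ≤ rho A * W A b g * (2 * rho A ^ (t - (g + 1)) + 3 * dl (g + 1)) := hback
      _ ≤ rho A * W A b g * (4 * dl g) := by
          apply mul_le_mul_of_nonneg_left _ (by positivity)
          linarith
      _ = W A b g * dl g * (4 * rho A) := by ring
  have h4 := le_of_mul_le_mul_left h3 hwd
  rw [rho_eq] at h4
  linarith

/-- Truncation. -/
def tr (n : ℕ) (ε : Om) : Om := fun i => if i < n then ε i else false

lemma tr_apply {n i : ℕ} (h : i < n) (ε : Om) : tr n ε i = ε i := if_pos h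

lemma tr_tr {m n : ℕ} (h : m ≤ n) (ε : Om) : tr m (tr n ε) = tr m ε := by
  funext i
  unfold tr
  by_cases h1 : i < m
  · rw [if_pos h1, if_pos h1, if_pos (by omega)]
  · rw [if_neg h1, if_neg h1]

lemma bval_congr {ε η : Om} {n g : ℕ} (hn : (A + 1) * (g + 1) ≤ n) (h : ∀ i < n, ε i = η i) :
    bval A ε g = bval A η g := by
  unfold bval val
  apply Finset.sum_congr rfl
  intro i hi
  rw [Finset.mem_range] at hi
  simp only
  rw [h _ (by nlinarith)]

lemma rem_congr {L : ℝ × ℝ} {ε η : Om} {n g : ℕ} (hn : (A + 1) * g ≤ n)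
    (h : ∀ i < n, ε i = η i) : rem A b L ε g = rem A b L η g := by
  unfold rem
  congr 1
  apply Finset.sum_congr rfl
  intro k hk
  rw [Finset.mem_range] at hk
  rw [bval_congr (n := n) (by nlinarith) h]

/-- The initial segments. -/
def PR (A : ℕ) (b : ℕ → ℕ) (L : ℝ × ℝ) (j₀ g : ℕ) : Set Om := tr ((A + 1) * g) '' EJ A b L j₀

lemma finite_tr (n : ℕ) (S : Set Om) : (tr n '' S).Finite ∧ (tr n '' S).ncard ≤ 2 ^ n := by
  have hinj : Set.InjOn (fun (x : Om) (i : Fin n) => x i) (tr n '' S) := by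
    rintro _ ⟨x, _, rfl⟩ _ ⟨y, _, rfl⟩ h
    funext i
    by_cases hi : i < n
    · exact congrFun h ⟨i, hi⟩
    · unfold tr; rw [if_neg hi, if_neg hi]
  have hfin : (tr n '' S).Finite :=
    Set.Finite.of_finite_image (Set.toFinite ((fun (x : Om) (i : Fin n) => x i) '' (tr n '' S))) hinj
  refine ⟨hfin, ?_⟩
  have h1 := Set.ncard_le_ncard_of_injOn (s := tr n '' S) (t := (Set.univ : Set (Fin n → Bool)))
    (fun (x : Om) (i : Fin n) => x i) (fun _ _ => Set.mem_univ _) hinj
  rwa [Set.ncard_univ, Nat.card_eq_fintype_card, Fintype.card_fun, Fintype.card_bool,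
    Fintype.card_fin] at h1

/-- The normalised remainder of a sign sequence. -/
noncomputable def U (A : ℕ) (b : ℕ → ℕ) (L : ℝ × ℝ) (g : ℕ) (ε : Om) : ℝ :=
  u A b (fun g => (rem A b L ε g).2) g

lemma U_congr {L : ℝ × ℝ} {g : ℕ} {ε η : Om} (h : ∀ i < (A + 1) * g, ε i = η i) :
    U A b L g ε = U A b L g η := by
  unfold U u
  simp only
  rw [rem_congr (n := (A + 1) * g) le_rfl h]

lemma bval_tr (g : ℕ) (ξ : Om) : bval A (tr ((A + 1) * (g + 1)) ξ) g = bval A ξ g :=
  bval_congr (n := (A + 1) * (g + 1)) le_rfl (fun _ hi => tr_apply hi ξ)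

lemma U_tr (L : ℝ × ℝ) (g : ℕ) (ξ : Om) :
    U A b L g (tr ((A + 1) * (g + 1)) ξ) = U A b L g ξ := by
  apply U_congr
  intro i hi
  apply tr_apply
  exact lt_of_lt_of_le hi (Nat.mul_le_mul_left _ (Nat.le_succ g))

/-- The code of an initial segment. -/
noncomputable def Phi (A : ℕ) (b : ℕ → ℕ) (L : ℝ × ℝ) (g : ℕ) (w : Om) : Om × ℤ :=
  (tr ((A + 1) * g) w, ⌊(bval A w g - (U A b L g w - 16 * (1 / 2) ^ A)) / (2 * (1 / 2) ^ A)⌋)

lemma Phi_maps (hA : 4 ≤ A) (hb : Breaks A b) {L : ℝ × ℝ} {j₀ j : ℕ} (hj : j₀ ≤ j) {g : ℕ}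
    (h1 : b (2 * j) ≤ g) (h2 : 2 * (g + 1) ≤ b (2 * j + 1)) :
    ∀ w ∈ PR A b L j₀ (g + 1), Phi A b L g w ∈ (PR A b L j₀ g) ×ˢ (Set.Icc (0 : ℤ) 16) := by
  have hle : (A + 1) * g ≤ (A + 1) * (g + 1) := Nat.mul_le_mul_left _ (Nat.le_succ g)
  have hq0 : (0 : ℝ) < (1 / 2) ^ A := by positivity
  rintro _ ⟨ε, hε, rfl⟩
  unfold Phi
  rw [bval_tr, U_tr, tr_tr hle]
  constructor
  · exact ⟨ε, hε, rfl⟩
  · have h3 := few_values hA hb hj hε h1 h2
    have h4 : |U A b L g ε - bval A ε g| ≤ 16 * (1 / 2) ^ A := h3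
    rw [abs_le] at h4
    constructor
    · apply Int.floor_nonneg.mpr
      apply div_nonneg _ (by positivity)
      linarith
    · rw [← Int.lt_add_one_iff, Int.floor_lt]
      rw [div_lt_iff₀ (by positivity)]
      push_cast
      linarith

lemma Phi_inj (L : ℝ × ℝ) (j₀ g : ℕ) : Set.InjOn (Phi A b L g) (PR A b L j₀ (g + 1)) := by
  have hle : (A + 1) * g ≤ (A + 1) * (g + 1) := Nat.mul_le_mul_left _ (Nat.le_succ g)
  have hq0 : (0 : ℝ) < (1 / 2) ^ A := by positivity
  rintro _ ⟨ε, _, rfl⟩ _ ⟨η, _, rfl⟩ h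
  unfold Phi at h
  rw [Prod.mk.injEq, bval_tr, U_tr, bval_tr, U_tr, tr_tr hle, tr_tr hle] at h
  obtain ⟨h3, h4⟩ := h
  have hag : ∀ i < (A + 1) * g, ε i = η i := by
    intro i hi
    have := congrFun h3 i
    rwa [tr_apply hi, tr_apply hi] at this
  rw [U_congr (L := L) hag] at h4
  have h5 := Int.abs_sub_lt_one_of_floor_eq_floor h4
  have h6 : |bval A ε g - bval A η g| < 2 * (1 / 2) ^ A := by
    rw [← sub_div, abs_div, abs_of_pos (by positivity : (0 : ℝ) < 2 * (1 / 2) ^ A),
      div_lt_one (by positivity)] at h5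
    have e3 : bval A ε g - (U A b L g η - 16 * (1 / 2) ^ A)
        - (bval A η g - (U A b L g η - 16 * (1 / 2) ^ A)) = bval A ε g - bval A η g := by ring
    rwa [e3] at h5
  have hpat : ∀ i ≤ A, ε ((A + 1) * g + i) = η ((A + 1) * g + i) := by
    by_contra hcon
    push Not at hcon
    have := val_sep A (fun i => ε ((A + 1) * g + i)) (fun i => η ((A + 1) * g + i)) hcon
    exact absurd h6 (not_lt.mpr this)
  funext i
  unfold tr
  by_cases hi : i < (A + 1) * (g + 1)
  · rw [if_pos hi, if_pos hi]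
    by_cases hi' : i < (A + 1) * g
    · exact hag i hi'
    · have h7 := hpat (i - (A + 1) * g) (by
        have : (A + 1) * (g + 1) = (A + 1) * g + (A + 1) := by ring
        omega)
      have h8 : (A + 1) * g + (i - (A + 1) * g) = i := by omega
      rwa [h8] at h7
  · rw [if_neg hi, if_neg hi]

lemma PR_step (hA : 4 ≤ A) (hb : Breaks A b) {L : ℝ × ℝ} {j₀ j : ℕ} (hj : j₀ ≤ j) {g : ℕ}
    (h1 : b (2 * j) ≤ g) (h2 : 2 * (g + 1) ≤ b (2 * j + 1)) :
    (PR A b L j₀ (g + 1)).ncard ≤ (PR A b L j₀ g).ncard * 17 := by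
  have hfin : ((PR A b L j₀ g) ×ˢ (Set.Icc (0 : ℤ) 16)).Finite :=
    (finite_tr _ _).1.prod (Set.finite_Icc _ _)
  have h3 := Set.ncard_le_ncard_of_injOn (Phi A b L g) (Phi_maps hA hb hj h1 h2)
    (Phi_inj L j₀ g) hfin
  rw [Set.ncard_prod] at h3
  have h4 : (Set.Icc (0 : ℤ) 16).ncard = 17 := by
    rw [← Finset.coe_Icc, Set.ncard_coe_finset]
    rfl
  rwa [h4] at h3

lemma PR_card (hA : 4 ≤ A) (hb : Breaks A b) {L : ℝ × ℝ} {j₀ j : ℕ} (hj : j₀ ≤ j) :
    ∀ g, b (2 * j) ≤ g → 2 * g ≤ b (2 * j + 1) →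
      (PR A b L j₀ g).ncard ≤ 2 ^ ((A + 1) * b (2 * j)) * 17 ^ (g - b (2 * j)) := by
  intro g hg
  induction g, hg using Nat.le_induction with
  | base =>
    intro _
    rw [Nat.sub_self, pow_zero, mul_one]
    exact (finite_tr ((A + 1) * b (2 * j)) (EJ A b L j₀)).2
  | succ g hg ih =>
    intro h
    have h1 := PR_step hA hb hj hg (L := L) (by omega : 2 * (g + 1) ≤ b (2 * j + 1))
    have h2 := ih (by omega)
    have e1 : g + 1 - b (2 * j) = (g - b (2 * j)) + 1 := by omega
    rw [e1, pow_succ, ← mul_assoc]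
    exact h1.trans (Nat.mul_le_mul_right _ h2)

lemma arith (m r : ℕ) : 2 ^ m * 17 ^ (2 * m + r) ≤ 32 ^ (2 * m + r) := by
  have h1 : 2 ^ m * 17 ^ (2 * m + r) = 578 ^ m * 17 ^ r := by
    rw [pow_add, pow_mul, ← mul_assoc, ← mul_pow]
    norm_num
  have h2 : 32 ^ (2 * m + r) = 1024 ^ m * 32 ^ r := by
    rw [pow_add, pow_mul]; norm_num
  rw [h1, h2]
  exact Nat.mul_le_mul (Nat.pow_le_pow_left (by norm_num) m) (Nat.pow_le_pow_left (by norm_num) r)

lemma dimH_EJ (hA : 4 ≤ A) (hb : Breaks A b) (L : ℝ × ℝ) (j₀ : ℕ) :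
    dimH (EJ A b L j₀) ≤ ENNReal.ofReal (5 / (A + 1)) := by
  classical
  -- levels
  set c : ℕ → ℕ := fun k => b (2 * (j₀ + k) + 1) / 2 with hc
  have hgrow : ∀ k, 4 * (A + 1) * (b (2 * (j₀ + k)) + 1) ≤ c k := by
    intro k
    have := hb.grow (2 * (j₀ + k))
    rw [hc]
    simp only
    rw [Nat.le_div_iff_mul_le (by norm_num)]
    nlinarith
  have hck : ∀ k, k ≤ c k := by
    intro k
    have h1 := hgrow k
    have h2 := hb.le_self (2 * (j₀ + k))
    nlinarith
  have hfin : ∀ k, (PR A b L j₀ (c k)).Finite := fun k => (finite_tr _ _).1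
  apply dimH_le_of_cover (s := 5 / (A + 1)) (C := 1) (by positivity) (fun k => (A + 1) * c k)
    (tendsto_atTop_mono (fun k => (by
      have := hck k
      nlinarith : k ≤ (A + 1) * c k)) tendsto_id)
    (fun k => (hfin k).toFinset.image (fun w => fun i : Fin ((A + 1) * c k) => w i))
  · intro k ε hε
    rw [Set.mem_iUnion₂]
    refine ⟨fun i => ε i, ?_, fun i => rfl⟩
    rw [Finset.mem_image]
    refine ⟨tr ((A + 1) * c k) ε, ?_, ?_⟩
    · rw [Set.Finite.mem_toFinset]
      exact ⟨ε, hε, rfl⟩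
    · funext i
      exact tr_apply i.2 ε
  · intro k
    have h1 : ((hfin k).toFinset.image (fun w => fun i : Fin ((A + 1) * c k) => w i)).card
        ≤ (PR A b L j₀ (c k)).ncard := by
      rw [Set.ncard_eq_toFinset_card _ (hfin k)]
      exact Finset.card_image_le
    have h2 : b (2 * (j₀ + k)) ≤ c k := by
      have := hgrow k
      nlinarith
    have h3 := PR_card hA hb (L := L) (by omega : j₀ ≤ j₀ + k) (c k) h2 (by
      rw [hc]; simp only; omega)
    have h4 : 2 ^ ((A + 1) * b (2 * (j₀ + k))) * 17 ^ (c k - b (2 * (j₀ + k))) ≤ 32 ^ (c k) := by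
      obtain ⟨r, hr⟩ : ∃ r, c k = 2 * ((A + 1) * b (2 * (j₀ + k))) + r := by
        apply Nat.exists_eq_add_of_le
        have := hgrow k
        nlinarith
      calc 2 ^ ((A + 1) * b (2 * (j₀ + k))) * 17 ^ (c k - b (2 * (j₀ + k)))
          ≤ 2 ^ ((A + 1) * b (2 * (j₀ + k))) * 17 ^ (c k) :=
            Nat.mul_le_mul_left _ (Nat.pow_le_pow_right (by norm_num) (Nat.sub_le _ _))
        _ ≤ 32 ^ (c k) := by
            rw [hr]
            exact arith _ _
    have h5 : (((hfin k).toFinset.image (fun w => fun i : Fin ((A + 1) * c k) => w i)).card : ℝ)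
        ≤ (32 : ℝ) ^ (c k) := by
      exact_mod_cast h1.trans (h3.trans h4)
    refine h5.trans (le_of_eq ?_)
    rw [one_mul]
    have e1 : (5 / ((A : ℝ) + 1)) * (((A + 1) * c k : ℕ) : ℝ) = ((5 * c k : ℕ) : ℝ) := by
      push_cast
      field_simp
    rw [e1, Real.rpow_natCast, pow_mul]
    norm_num

lemma dimH_EL (hA : 4 ≤ A) (hb : Breaks A b) (L : ℝ × ℝ) :
    dimH (EL (vec A b) L) ≤ ENNReal.ofReal (5 / (A + 1)) := by
  refine (dimH_mono (EL_subset hb L)).trans ?_
  rw [dimH_iUnion]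
  exact iSup_le fun j => dimH_EJ hA hb L j

end

/-- **Main theorem.** For every `s > 0` there is a null sequence in the plane such that every
point of the plane is attained as a signed sum, while all the sets `E_L` have Hausdorff dimension
at most `s`. -/
theorem result (s : ℝ) (hs : 0 < s) :
    ∃ v : ℕ → ℝ × ℝ, Tendsto v atTop (𝓝 0) ∧ (∀ L : ℝ × ℝ, (EL v L).Nonempty) ∧
      ∀ L : ℝ × ℝ, dimH (EL v L) ≤ ENNReal.ofReal s := by
  obtain ⟨n, hn⟩ := exists_nat_ge (5 / s)
  set A := n + 4 with hA'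
  have hA : 4 ≤ A := by omega
  obtain ⟨b, hb⟩ := exists_breaks A
  refine ⟨vec A b, vec_tendsto hA, EL_nonempty hA hb, fun L => ?_⟩
  refine (dimH_EL hA hb L).trans (ENNReal.ofReal_le_ofReal ?_)
  rw [div_le_iff₀ (by positivity)]
  rw [div_le_iff₀ hs] at hn
  have : (A : ℝ) = n + 4 := by rw [hA']; push_cast; ring
  nlinarith

end Pool.Agent.Results.MP_b48a23_an.SmallDim
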